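import Pool.Agent.Helper1.T5g.ZDefs
import Pool.Agent.Helper84.T5g.Top

/-!
# T5g (MP_12a1af), line 7: `CaseTwo`

Free sets of hits from the common target `ZStatS` of the lines 6 and 7 and from the bound `MultS`
for free sets of hits with a fixed sum of the joint codes.
-/

set_option autoImplicit false

namespace Pool.Agent.Helper36.T5g

open Finset Pool.Agent.Helper37.T5g Pool.Agent.Helper30.T5g
open Pool.Agent.Helper84.T5g Pool.Agent.Helper22.NEARg Pool.Agent.Helper1.T5g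
open Pool.Agent.Helper42.T5.Pr Pool.Agent.Helper27.T5g Pool.Agent.Helper27.T5b

/-- free sets of hits with a fixed sum of the joint codes -/
def MulC (m : Sq) (k : ℕ) (l l' : ℕ) (w : Key → ℕ) (c : ℕ) : Prop :=
  ∃ n s, ∃ T ⊆ Hts m k l l' w n, Free m k l l' T ∧
    (∀ q ∈ T, c0 m k l w q.1.1.1 + c0 m k l' w q.2.1.1 = s) ∧ c = T.card

/-- MULT of line 7 -/
def MultS : Prop := Blk CaseTwo MulC

/-- the pairs of `CaseTwo` are of the form `DZ` -/
theorem DZ_of_two {m : Sq} {k l' l : ℕ} (hm : m.Ok) (hl : l' ≤ l) (h : CaseTwo m k l' l) :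
    DZ m k l' l := by
  obtain ⟨h1, h2, h3, h4⟩ := h
  have e2 : sL m k l' = sL m k l := h2
  refine ⟨hl, h1, h2, ?_, ?_, ?_⟩
  · unfold bL
    have := dv_mono hm k (l1_mono (ins m k) hl)
    exact Nat.sub_le_sub_right this k
  · intro i _ _ he
    have a1 : ef m k l' i ≤ ef m k l' 0 := by
      unfold ef
      exact ez_le hm (by omega) l'
    have a2 : l < ef m k l i := lt_ez hm _ l
    omega
  · unfold wW
    rw [Nat.sub_zero]
    exact h4

/-- selection of representatives -/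
theorem card_le_of_free {m : Sq} {k l l' : ℕ} {w : Key → ℕ} {n M1 M2 : ℕ}
    (h1 : ∀ c, ZHitC m k l l' w c → c ≤ M1) (h2 : ∀ c, MulC m k l l' w c → c ≤ M2)
    {T : Finset (Par m k l × Par m k l')} (hT : T ⊆ Hts m k l l' w n) (hf : Free m k l l' T) :
    T.card ≤ M2 * M1 := by
  classical
  set f : Par m k l × Par m k l' → ℕ := fun q => c0 m k l w q.1.1.1 + c0 m k l' w q.2.1.1 with hfd
  have hle : T.card ≤ M2 * (T.image f).card := by
    refine card_le_mul_card_image T M2 (fun s _ => ?_)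
    refine h2 _ ⟨n, s, T.filter (fun q => f q = s), (filter_subset _ _).trans hT, ?_, ?_, rfl⟩
    · intro q hq r hr hne
      exact hf q (mem_filter.1 hq).1 r (mem_filter.1 hr).1 hne
    · intro q hq
      exact (mem_filter.1 hq).2
  refine hle.trans (Nat.mul_le_mul_left _ ?_)
  -- representatives
  have hex : ∀ s ∈ T.image f, ∃ q ∈ T, f q = s := fun s hs => mem_image.1 hs
  choose! g hg1 hg2 using hex
  set H : Finset ((JF → ℕ) × (JF → ℕ)) := (T.image f).image (fun s => ((g s).1.1.1, (g s).2.1.1))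
    with hH
  have hs : ∀ s ∈ T.image f, sJ m k l l' w ((g s).1.1.1, (g s).2.1.1) = s := fun s h => hg2 s h
  have hcard : H.card = (T.image f).card := by
    refine card_image_of_injOn (fun s hsm t htm hst => ?_)
    rw [← hs s hsm, ← hs t htm]
    exact congrArg (sJ m k l l' w) hst
  rw [← hcard]
  refine h1 _ ⟨n, H, ?_, ?_, rfl⟩
  · intro q hq
    rw [hH, mem_image] at hq
    obtain ⟨s, hsm, rfl⟩ := hq
    exact mem_image_of_mem (fun q : Par m k l × Par m k l' => (q.1.1.1, q.2.1.1))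
      (hT (hg1 s hsm))
  · intro a ha b hb hab
    rw [mem_coe, hH, mem_image] at ha hb
    obtain ⟨s, hsm, rfl⟩ := ha
    obtain ⟨t, htm, rfl⟩ := hb
    rw [hs s hsm, hs t htm] at hab
    rw [hab]

/-- **line 7** from the common target of the lines 6 and 7 and MULT -/
theorem two_of (hZ : ZStatS) (hM : MultS) : Blk CaseTwo FreeC := by
  obtain ⟨E, k1, hZ⟩ := hZ
  obtain ⟨E', k2, hM⟩ := hM
  refine ⟨E + E', max k1 k2, fun m hm hk => ?_⟩
  obtain ⟨K1, c1, m1', a2, a3, hZ⟩ := hZ m hm ((le_max_left _ _).trans hk)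
  obtain ⟨K2, c2, m2', b2, b3, hM⟩ := hM m hm ((le_max_right _ _).trans hk)
  refine ⟨max K1 K2 + 1, min c1 c2, m1' + m2', lt_min a2 b2, by positivity, ?_⟩
  intro l l' hl' hll ha hp K hK hK'
  have h1 : K1 ≤ l' := by omega
  have h2 : K2 ≤ l' := by omega
  have hl1 : (1 : ℝ) ≤ (l : ℝ) := by exact_mod_cast (show 1 ≤ l by omega)
  have hA := hZ l l' h1 hll ha (DZ_of_two hm.toOk hll hp) K hK hK'
  have hB := hM l l' h2 hll ha hp K hK hK'
  refine PrLe_mono (fun r _ hw => ?_) ?_ (PrLe_or hA hB)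
  · generalize ext K r = w at hw ⊢
    by_contra hcon
    rw [not_or] at hcon
    obtain ⟨hn1, hn2⟩ := hcon
    push Not at hn1 hn2
    obtain ⟨c, ⟨n, T, hT, hf, rfl⟩, hlt⟩ := hw
    have hcard := card_le_of_free (n := n) (M1 := 2 ^ (E * m.q 0)) (M2 := 2 ^ (E' * m.q 0))
      hn1 hn2 hT hf
    have h5 : 2 ^ (E' * m.q 0) * 2 ^ (E * m.q 0) = 2 ^ ((E + E') * m.q 0) := by
      rw [← pow_add]
      congr 1
      ring
    omega
  · have e1 : Real.exp (-((l : ℝ) ^ c1)) ≤ Real.exp (-((l : ℝ) ^ min c1 c2)) :=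
      Real.exp_le_exp.2 (neg_le_neg (Real.rpow_le_rpow_of_exponent_le hl1 (min_le_left _ _)))
    have e2 : Real.exp (-((l : ℝ) ^ c2)) ≤ Real.exp (-((l : ℝ) ^ min c1 c2)) :=
      Real.exp_le_exp.2 (neg_le_neg (Real.rpow_le_rpow_of_exponent_le hl1 (min_le_right _ _)))
    nlinarith [mul_le_mul_of_nonneg_left e1 a3, mul_le_mul_of_nonneg_left e2 b3]

end Pool.Agent.Helper36.T5g
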