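import Pool.Agent.Helper1.T5g.ZDefs3
import Pool.Agent.Helper57.T5g.Z0
import Pool.Agent.Helper12.T5g.ZKey
import Pool.Agent.Helper55.T5g.ZHit
import Pool.Agent.Helper45.T5g.Nb5V
import Pool.Agent.Helper27.T5g.Range
import Pool.Agent.Helper2.T5g.ZSize
import Pool.Agent.Helper2.T5g.ZEnd
import Pool.Agent.Helper30.T5g.BigQF

/-!
# T5g (MP_12a1af), lines 6 and 7: the common target from the statement for fixed windows and joint
keys

Conditioning on the windows (deep keys), then on the joint keys, union over the sums `n`.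
-/

set_option autoImplicit false

namespace Pool.Agent.Helper36.T5g

open Finset
open Pool.Agent.Helper5.ET hiding Key Mk AA Rp keysOf el ext
open Pool.Agent.Helper27.T4
open Pool.Agent.Helper37.T5g
open Pool.Agent.Helper30.T5g hiding pz_prime pz_inj NL_pos
open Pool.Agent.Helper22.HW Pool.Agent.Helper22.SL Pool.Agent.Helper57.T5
open Pool.Agent.Helper84.T5g Pool.Agent.Helper44.T5 Pool.Agent.Helper44.T5g Pool.Agent.Helper44.T5b
open Pool.Agent.Helper22.NEARg Pool.Agent.Helper75.T5 Pool.Agent.Helper1.T5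
open Pool.Agent.Helper36.T5 Pool.Agent.Helper1.T5g Pool.Agent.Helper1.T5b

variable {m : Sq} {k l' l : ℕ}

/-! ## the hits of a glued assignment -/

/-- the labels depend on the joint keys only -/
theorem LbJ_congr {w w' : Key → ℕ}
    (h : ∀ q ∈ XJ m k l ×ˢ XJ m k l', sJ m k l l' w q = sJ m k l l' w' q) (n : ℕ) :
    LbJ m k l l' w n = LbJ m k l l' w' n := by
  classical
  unfold LbJ
  refine filter_congr (fun q hq => ?_)
  rw [h q hq]

/-- a set of labels of hits of `W` with different sums is, in the form `LbT`, a set of labels which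
are hit through the keyed level, for the joint keys `w1`, the windows `v` and the other keys `w'` -/
theorem labels_of {h n : ℕ} {K : Finset Key} (hh : 1 + h = hz m k l' l)
    (hr : 1 + h ≤ rL m k l) (hr' : 1 + h ≤ rL m k l') {W w1 v w' : Key → ℕ}
    (hJ : ∀ q ∈ XJ m k l ×ˢ XJ m k l', sJ m k l l' W q = sJ m k l l' w1 q)
    (hB : Bw m k l (1 + h) W = Bw m k l (1 + h) v ∧ Bw m k l' (1 + h) W = Bw m k l' (1 + h) v)
    (hK1 : ∀ x ∈ XJ m k l, ∀ y ∈ Ys m k l 0, ∀ f, ∀ s, 1 ≤ s →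
      (OSu m k l).key (okey m k l 0 x) f y ∈ K \ (keysJ m k l l' ∪ deep m k l l' s))
    (hK2 : ∀ x ∈ XJ m k l', ∀ y ∈ Ys m k l 0, ∀ f, ∀ s, 1 ≤ s →
      (OSl m k l' l).key (okey m k l' 0 x) f y ∈ K \ (keysJ m k l l' ∪ deep m k l l' s))
    (hK3 : ∀ h, 1 + h ≤ rL m k l → 1 + h ≤ rL m k l' → ∀ r < h, ∀ i,
      ∀ y ∈ (PZo m k l' l 1 h 0 0).Y r,
        (PZo m k l' l 1 h 0 0).key r i y ∈ K \ (keysJ m k l l' ∪ deep m k l l' (1 + h)) ∧
        (PZo m k l' l 1 h 0 0).key' r i y ∈ K \ (keysJ m k l l' ∪ deep m k l l' (1 + h)))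
    (hW : ∀ q ∈ K \ (keysJ m k l l' ∪ deep m k l l' (1 + h)), W q = w' q)
    (h1 : ∀ q ∈ LbH m k l l' W n, q ∈ LbJ m k l l' W n ∧
      ∃ y ∈ Ys m k l 0, ∃ y' ∈ Ys m k l 0, ∃ u ∈ Zw m k l 1 W, ∃ u' ∈ Zw m k l' 1 W,
        (OSu m k l).cd (pz_prime k _) (pz_inj k _) W (okey m k l 0 q.1) y +
          (OSl m k l' l).cd (pz_prime k _) (pz_inj k _) W (okey m k l' 0 q.2) y' +
            (u + u') = n - sJ m k l l' W q)
    (h2 : ∀ h, 1 + h = hz m k l' l → ∀ u ∈ Zw m k l 1 W, ∀ u' ∈ Zw m k l' 1 W,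
      HitT (PZo m k l' l 1 h 0 0) W (Bw m k l (1 + h) W) (Bw m k l' (1 + h) W) (u + u'))
    {H : Finset ((JF → ℕ) × (JF → ℕ))} (hH : H ⊆ LbH m k l l' W n)
    (hinj : Set.InjOn (sJ m k l l' W) (H : Set ((JF → ℕ) × (JF → ℕ)))) :
    ∃ H' ⊆ LbT m k l l' w1 n, H'.card = H.card ∧
      ∀ g ∈ H', KHz m k l' l h (Bw m k l (1 + h) v) (Bw m k l' (1 + h) v) w' g := by
  classical
  have hlab := LbJ_congr hJ n
  have hmem : ∀ q ∈ H, q ∈ LbJ m k l l' w1 n := fun q hq => by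
    rw [← hlab]
    exact (h1 q (hH hq)).1
  have hx : ∀ q ∈ H, q ∈ XJ m k l ×ˢ XJ m k l' := fun q hq => by
    have := hmem q hq
    unfold LbJ at this
    exact (mem_filter.1 this).1
  have hle : ∀ q ∈ H, sJ m k l l' w1 q ≤ n := fun q hq => by
    have := hmem q hq
    unfold LbJ at this
    exact (mem_filter.1 this).2.1
  refine ⟨H.image (fun q => (okey m k l 0 q.1, (okey m k l' 0 q.2, n - sJ m k l l' w1 q))),
    ?_, ?_, ?_⟩
  · intro g hg
    obtain ⟨q, hq, rfl⟩ := mem_image.1 hg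
    unfold LbT
    exact mem_image_of_mem (fun q : (JF → ℕ) × (JF → ℕ) => (okey m k l 0 q.1,
      (okey m k l' 0 q.2, n - sJ m k l l' w1 q))) (hmem q hq)
  · refine card_image_of_injOn (fun q hq r hr0 he => ?_)
    have hq' : q ∈ H := mem_coe.1 hq
    have hr' : r ∈ H := mem_coe.1 hr0
    have e : n - sJ m k l l' w1 q = n - sJ m k l l' w1 r :=
      (Prod.mk.inj (Prod.mk.inj he).2).2
    have a1 := hle q hq'
    have a2 := hle r hr'
    refine hinj hq hr0 ?_
    rw [hJ q (hx q hq'), hJ r (hx r hr')]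
    omega
  · intro g hg
    obtain ⟨q, hq, rfl⟩ := mem_image.1 hg
    obtain ⟨-, y, hy, y', hy', u, hu, u', hu', hs⟩ := h1 q (hH hq)
    have hxq := mem_product.1 (hx q hq)
    have ht := h2 h hh u hu u' hu'
    rw [hB.1, hB.2] at ht
    refine ⟨y, hy, y', hy', u + u', ?_, ?_⟩
    · have e1 : (OSu m k l).cd (pz_prime k _) (pz_inj k _) W (okey m k l 0 q.1) y =
          (OSu m k l).cd (pz_prime k _) (pz_inj k _) w' (okey m k l 0 q.1) y :=
        cd_congr _ _ _ (fun i => hW _ (hK1 q.1 hxq.1 y hy i (1 + h) (Nat.le_add_right _ _)))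
      have e2 : (OSl m k l' l).cd (pz_prime k _) (pz_inj k _) W (okey m k l' 0 q.2) y' =
          (OSl m k l' l).cd (pz_prime k _) (pz_inj k _) w' (okey m k l' 0 q.2) y' :=
        cd_congr _ _ _ (fun i => hW _ (hK2 q.2 hxq.2 y' hy' i (1 + h) (Nat.le_add_right _ _)))
      rw [e1, e2, hJ q (hx q hq)] at hs
      exact hs
    · refine HitT_congr (fun r hr0 i z hz0 => ?_) ht
      obtain ⟨c1, c2⟩ := hK3 h hr hr' r hr0 i z hz0
      exact ⟨hW _ c1, hW _ c2⟩

/-! ## the range of the sums -/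

/-- hits have small sums -/
theorem lt_of_LbH {w : Key → ℕ} {n : ℕ} (hN : NL m k l' ≤ NL m k l)
    (h1 : ∀ a ∈ AA m k l w, a < 17 * NL m k l) (h2 : ∀ a ∈ AA m k l' w, a < 17 * NL m k l')
    {q : (JF → ℕ) × (JF → ℕ)} (hq : q ∈ LbH m k l l' w n) : n < 34 * NL m k l + 1 := by
  classical
  unfold LbH at hq
  obtain ⟨r, hr, -⟩ := mem_image.1 hq
  unfold Hts at hr
  obtain ⟨hr1, hr2⟩ := mem_filter.1 hr
  obtain ⟨hr3, hr4⟩ := mem_product.1 hr1
  have a1 := h1 (val m k l w r.1) (by rw [AA_eq]; exact mem_image_of_mem _ hr3)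
  have a2 := h2 (val m k l' w r.2) (by rw [AA_eq]; exact mem_image_of_mem _ hr4)
  omega

/-! ## the sets of keys -/

theorem RegE_congr {i : ℕ} {w w' : Key → ℕ} (h : Bw m k l i w = Bw m k l i w') :
    RegE m k l i w ↔ RegE m k l i w' := by
  unfold RegE
  rw [h]

theorem deep_sub {K : Finset Key} (hK : keysOf m k l ⊆ K) (hK' : keysOf m k l' ⊆ K) (s : ℕ) :
    deep m k l l' s ⊆ K := by
  classical
  intro q hq
  unfold deep keysD at hq
  rcases mem_union.1 hq with h | h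
  · exact hK (mem_filter.1 h).1
  · exact hK' (mem_filter.1 h).1

theorem keysJ_sub {K : Finset Key} (hK : keysOf m k l ⊆ K) (hK' : keysOf m k l' ⊆ K) :
    keysJ m k l l' ⊆ K := by
  classical
  intro q hq
  unfold keysJ at hq
  rcases mem_union.1 (mem_filter.1 hq).1 with h | h
  · exact hK h
  · exact hK' h

theorem keysJ_deep {q : Key} (hq : q ∈ keysJ m k l l') (s : ℕ) : q ∉ deep m k l l' s := by
  classical
  intro h
  unfold keysJ at hq
  have h1 := (mem_filter.1 hq).2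
  have h2 : isDeep s q := by
    unfold deep keysD at h
    rcases mem_union.1 h with h | h
    · exact (mem_filter.1 h).2
    · exact (mem_filter.1 h).2
  cases q with
  | J l i x => exact h2
  | S l t f o y => exact h1
  | V l L b => exact h1

theorem PrLe_of_PrG {κ : Type*} [DecidableEq κ] {M : κ → ℕ} {K : Finset κ}
    {B : (κ → ℕ) → Prop} {ε : ℝ} (h : PrG M K B ε) : Pool.Agent.Helper42.T5.Pr.PrLe M K B ε := h

/-! ## one pair of states -/

/-- one pair of states -/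
theorem pair_prob (hm : m.Ok) (hQ : Pool.Agent.Helper30.T5g.BigQ m k) (hk : 3 ≤ k)
    (hS : SizeZS m k) (hF : FixedS m k) :
    ∃ K0 : ℕ, ∀ l' l, K0 ≤ l' → DZ m k l' l → ∀ K, keysOf m k l ⊆ K → keysOf m k l' ⊆ K →
    ∀ N : ℕ, 1 ≤ N → PrG (Mk m k) K (fun w => ∃ n, ∃ H ⊆ LbH m k l l' w n,
        Set.InjOn (sJ m k l l' w) (H : Set ((JF → ℕ) × (JF → ℕ))) ∧ (N + 1) ^ 6000 < H.card)
      (2 * Real.exp (-(wW m k l (hz m k l' l) : ℝ)) +
        Real.exp (2 ^ (3 * m.q 0) * l) * Real.exp (-((wW m k l (hz m k l' l) : ℝ) / 200)) ^ N) := by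
  classical
  have hm0 := hm
  obtain ⟨Ka, hZ⟩ := Pool.Agent.Helper57.T5g.hzS (m := m) (k := k) hm hk
  obtain ⟨Kb, hKey⟩ := Pool.Agent.Helper12.T5g.keyS (m := m) (k := k) hm hk
  obtain ⟨Kc, hHit⟩ := Pool.Agent.Helper55.T5g.hitS (m := m) (k := k) hm hk
  obtain ⟨Kd, hReg⟩ := Pool.Agent.Helper45.T5g.reg_all m k hm
  obtain ⟨Ke, hSz⟩ := hS
  obtain ⟨Kf, hRg⟩ := Pool.Agent.Helper27.T5g.exists_AA_range hm0 k
  obtain ⟨Kg, hFx⟩ := hF
  refine ⟨Ka + Kb + Kc + Kd + Ke + Kf + Kg, fun l' l hl' hD K hK hK' N hN => ?_⟩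
  have hll : l' ≤ l := hD.le
  obtain ⟨hlt, z3, z4, z5, z6, z7, z8⟩ := hZ l' l (by omega) hD
  have hz1 : 1 ≤ hz m k l' l := by
    by_contra hcon
    have e : hz m k l' l = 0 := by omega
    rw [e] at z6
    have := hD.short
    omega
  obtain ⟨h, hh⟩ : ∃ h, 1 + h = hz m k l' l := ⟨hz m k l' l - 1, by omega⟩
  rw [← hh] at z4 z5 ⊢
  obtain ⟨kJ, kB, kK⟩ := hKey l' l (by omega) hD
  obtain ⟨k1, k2, k3⟩ := kK K hK hK'
  have hKd : deep m k l l' (1 + h) ⊆ K := deep_sub hK hK' _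
  have hKj : keysJ m k l l' ⊆ K := keysJ_sub hK hK'
  have hKj' : keysJ m k l l' ⊆ K \ deep m k l l' (1 + h) := fun q hq =>
    mem_sdiff.2 ⟨hKj hq, keysJ_deep hq _⟩
  have hKK : (K \ deep m k l l' (1 + h)) \ keysJ m k l l' =
      K \ (keysJ m k l l' ∪ deep m k l l' (1 + h)) := by
    apply Finset.ext
    intro q
    simp only [mem_sdiff, mem_union]
    tauto
  set W := (wW m k l (1 + h) : ℝ) with hW
  have hε : 0 ≤ Real.exp (2 ^ (3 * m.q 0) * l) * Real.exp (-(W / 200)) ^ N := by positivity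
  have hA : PrG (Mk m k) (deep m k l l' (1 + h))
      (fun w => ¬ RegE m k l (1 + h) w ∨ ¬ RegE m k l' (1 + h) w) (2 * Real.exp (-W)) := by
    have r1 := hReg l (1 + h) (by omega) (Nat.le_add_right _ _) z4 K hK
    have r2 := hReg l' (1 + h) (by omega) (Nat.le_add_right _ _) z5 K hK'
    have e : wW m k l' (1 + h) = wW m k l (1 + h) := by
      unfold wW
      rw [show sL m k l' = sL m k l from hD.same]
    rw [e] at r2
    have r := PrG_or r1 r2
    refine (PrG_dep_iff (Mk_pos m k) hKd ?_).1 (PrG_mono (fun _ _ h => h) (by linarith) r)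
    intro w w' hw
    obtain ⟨b1, b2⟩ := kB w w' (1 + h) (Nat.le_add_right _ _) z4 z5 hw
    exact or_congr (not_congr (RegE_congr b1)) (not_congr (RegE_congr b2))
  refine PrG_cond_bad hKd hε hA ?_
  intro r2 hr2 hnA
  rw [not_or, not_not, not_not] at hnA
  refine PrG_cond hKj' hε ?_
  intro r1 hr1
  rw [hKK]
  have hsum := PrG_exists (range (34 * NL m k l + 1)) (fun n hn =>
    hFx l' l (by omega) hD K hK hK' (ext (keysJ m k l l') r1) n h hh (mem_range.1 hn)
      (ext (deep m k l l' (1 + h)) r2) hnA.1 hnA.2 N hN)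
  refine PrG_mono ?_ ?_ hsum
  · rintro r _ ⟨n, H, hH, hinj, hc⟩
    have hne : H.Nonempty := by
      rw [← card_pos]
      omega
    obtain ⟨q0, hq0⟩ := hne
    have hn : n < 34 * NL m k l + 1 := by
      refine lt_of_LbH (Pool.Agent.Helper30.T5g.NL_mono m k hll)
        (fun a ha => (hRg l (by omega) _ a ha).2.1)
        (fun a ha => (hRg l' (by omega) _ a ha).2.1) (hH hq0)
    obtain ⟨hh1, hh2, -⟩ := hHit l' l (by omega) hD
      (glue (deep m k l l' (1 + h)) (ext (deep m k l l' (1 + h)) r2)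
        (glue (keysJ m k l l') (ext (keysJ m k l l') r1)
          (ext (K \ (keysJ m k l l' ∪ deep m k l l' (1 + h))) r)))
    obtain ⟨H', hH', hc', hk'⟩ := labels_of (w1 := ext (keysJ m k l l') r1)
      (v := ext (deep m k l l' (1 + h)) r2)
      (w' := ext (K \ (keysJ m k l l' ∪ deep m k l l' (1 + h))) r) hh z4 z5
      (kJ _ _ (fun q hq => by
        rw [glue_not_mem _ _ _ (keysJ_deep hq _), glue_mem _ _ _ hq]))
      (kB _ _ (1 + h) (Nat.le_add_right _ _) z4 z5 (fun q hq => glue_mem _ _ _ hq))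
      k1 k2 k3
      (fun q hq => by
        have hq1 := (mem_sdiff.1 hq).2
        rw [mem_union, not_or] at hq1
        rw [glue_not_mem _ _ _ hq1.2, glue_not_mem _ _ _ hq1.1])
      (hh1 n) hh2 hH hinj
    exact ⟨n, mem_range.2 hn, H', hH', by rw [hc']; exact hc, hk'⟩
  · rw [sum_const, nsmul_eq_mul, card_range]
    have h1 := (hSz l (by omega)).1
    have h2 : Real.exp (2 ^ m.q 0 * l) * Real.exp (2 ^ (2 * m.q 0) * l) ≤
        Real.exp (2 ^ (3 * m.q 0) * l) := by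
      rw [← Real.exp_add, ← add_mul]
      refine Real.exp_le_exp.2 (mul_le_mul_of_nonneg_right ?_ (Nat.cast_nonneg _))
      have hq : 1 ≤ m.q 0 := by
        have := hm.q 0
        omega
      have g2 : (2 : ℝ) ≤ 2 ^ m.q 0 := by
        calc (2 : ℝ) = 2 ^ 1 := (pow_one _).symm
          _ ≤ _ := pow_le_pow_right₀ (by norm_num) hq
      have g3 : (2 : ℝ) ^ (2 * m.q 0) = 2 ^ m.q 0 * 2 ^ m.q 0 := by
        rw [← pow_add]
        congr 1
        ring
      have g4 : (2 : ℝ) ^ (3 * m.q 0) = 2 ^ m.q 0 * (2 ^ m.q 0 * 2 ^ m.q 0) := by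
        rw [← pow_add, ← pow_add]
        congr 1
        ring
      rw [g3, g4]
      generalize (2 : ℝ) ^ m.q 0 = x at g2
      nlinarith [mul_le_mul_of_nonneg_left g2 (by positivity : (0 : ℝ) ≤ x * x)]
    refine le_trans (mul_le_mul_of_nonneg_right h1 (by positivity)) ?_
    rw [← mul_assoc]
    exact mul_le_mul_of_nonneg_right h2 (by positivity)

/-- **the common target of the lines 6 and 7**, from the statement for fixed windows and joint
keys -/
theorem zstat_of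
    (hF : ∀ m : Sq, Pool.Agent.Helper99.T5g.OkF m → 3 ≤ m.k → FixedS m m.k) : ZStatS := by
  obtain ⟨E, k0, hE⟩ := Pool.Agent.Helper2.T5g.endS_of (k0 := 3)
    (fun m hm hk => Pool.Agent.Helper57.T5g.hzS hm.toOk hk)
  refine ⟨E, max k0 3, fun m hm hk => ?_⟩
  have hk3 : 3 ≤ m.k := (le_max_right _ _).trans hk
  obtain ⟨K1, hP⟩ := pair_prob (m := m) (k := m.k) hm.toOk
    (Pool.Agent.Helper30.T5g.bigQ_of_okF hm) hk3 (Pool.Agent.Helper2.T5g.sizeZS hm) (hF m hm hk3)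
  obtain ⟨c0, K2, a2, hEnd⟩ := hE m hm ((le_max_left _ _).trans hk)
  refine ⟨K1 + K2 + 1, c0, 3, a2, by norm_num, ?_⟩
  intro l l' hl' hll _ hD K hK hK'
  obtain ⟨e1, N, hN, e2, e3⟩ := hEnd l' l (by omega) hD
  have h := hP l' l (by omega) hD K hK hK' N hN
  refine PrLe_of_PrG (PrG_mono ?_ ?_ h)
  · rintro r _ ⟨c, ⟨n, H, hH, hinj, rfl⟩, hlt⟩
    exact ⟨n, H, hH, hinj, lt_of_le_of_lt e3 hlt⟩
  · set W := (wW m m.k l (hz m m.k l' l) : ℝ) with hW
    have h1 : Real.exp (2 ^ (3 * m.q 0) * l) * Real.exp (-(W / 200)) ^ N ≤ Real.exp (-W) := by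
      rw [← Real.exp_nat_mul, ← Real.exp_add]
      apply Real.exp_le_exp.2
      nlinarith
    have h2 : Real.exp (-W) ≤ Real.exp (-((l : ℝ) ^ c0)) :=
      Real.exp_le_exp.2 (neg_le_neg e1)
    linarith

end Pool.Agent.Helper36.T5g
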