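import Pool.Agent.Helper36.T5g.Two
import Pool.Agent.Helper44.T5g.Joint
import Pool.Agent.Helper83.T5g.Leaf
import Pool.Agent.Helper57.T5g.Z0
import Pool.Agent.Helper96.T5g.MNs

/-!
# T5g (MP_12a1af), line 6: `CaseInj` from the common target of the lines 6 and 7
-/

set_option autoImplicit false

namespace Pool.Agent.Helper36.T5g

open Finset Pool.Agent.Helper37.T5g Pool.Agent.Helper30.T5g
open Pool.Agent.Helper84.T5g Pool.Agent.Helper22.NEARg Pool.Agent.Helper1.T5g
open Pool.Agent.Helper42.T5.Pr Pool.Agent.Helper44.T5g Pool.Agent.Helper44.T5b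

/-- hits from labels with different sums, from the leaf bound and from the number of labels with a
given sum -/
theorem card_hts_le {m : Sq} {k l l' : ℕ} {w : Key → ℕ} {n M1 M2 M3 : ℕ}
    (h1 : ∀ c, ZHitC m k l l' w c → c ≤ M1) (h2 : ∀ c, LeafC m k l l' w c → c ≤ M2)
    (h3 : ∀ s, ((XJ m k l ×ˢ XJ m k l').filter
      (fun q => c0 m k l w q.1 + c0 m k l' w q.2 = s)).card ≤ M3) :
    (Hts m k l l' w n).card ≤ M2 * (M3 * M1) := by
  classical
  have e1 : (Hts m k l l' w n).card ≤ M2 * (LbH m k l l' w n).card := by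
    unfold LbH
    refine card_le_mul_card_image (f := fun q : Par m k l × Par m k l' => (q.1.1.1, q.2.1.1))
      (Hts m k l l' w n) M2 (fun b _ => ?_)
    refine le_trans (le_of_eq ?_) (h2 _ ⟨n, b.1, b.2, rfl⟩)
    congr 1
    refine filter_congr (fun q _ => ?_)
    exact Prod.ext_iff
  have hx : ∀ q ∈ LbH m k l l' w n, q ∈ XJ m k l ×ˢ XJ m k l' := by
    intro q hq
    unfold LbH at hq
    obtain ⟨r, hr, rfl⟩ := mem_image.1 hq
    unfold Hts Pm at hr
    have h4 := mem_product.1 (mem_filter.1 hr).1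
    exact mem_product.2 ⟨(mem_product.1 (mem_product.1 h4.1).1).1,
      (mem_product.1 (mem_product.1 h4.2).1).1⟩
  have e2 : (LbH m k l l' w n).card ≤ M3 * ((LbH m k l l' w n).image (sJ m k l l' w)).card := by
    refine card_le_mul_card_image (LbH m k l l' w n) M3 (fun s _ => ?_)
    refine le_trans (card_le_card (fun q hq => ?_)) (h3 s)
    obtain ⟨a1, a2⟩ := mem_filter.1 hq
    exact mem_filter.2 ⟨hx q a1, a2⟩
  have e3 : ((LbH m k l l' w n).image (sJ m k l l' w)).card ≤ M1 := by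
    have hex : ∀ s ∈ (LbH m k l l' w n).image (sJ m k l l' w),
        ∃ q ∈ LbH m k l l' w n, sJ m k l l' w q = s := fun s hs => mem_image.1 hs
    choose! g hg1 hg2 using hex
    have hcard : (((LbH m k l l' w n).image (sJ m k l l' w)).image g).card =
        ((LbH m k l l' w n).image (sJ m k l l' w)).card := by
      refine card_image_of_injOn (fun s hsm t htm hst => ?_)
      rw [← hg2 s hsm, ← hg2 t htm, hst]
    rw [← hcard]
    refine h1 _ ⟨n, ((LbH m k l l' w n).image (sJ m k l l' w)).image g, ?_, ?_, rfl⟩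
    · intro q hq
      obtain ⟨s, hsm, rfl⟩ := mem_image.1 hq
      exact hg1 s hsm
    · intro a ha b hb hab
      obtain ⟨s, hsm, rfl⟩ := mem_image.1 (mem_coe.1 ha)
      obtain ⟨t, htm, rfl⟩ := mem_image.1 (mem_coe.1 hb)
      rw [hg2 s hsm, hg2 t htm] at hab
      rw [hab]
  exact e1.trans (Nat.mul_le_mul_left _ (e2.trans (Nat.mul_le_mul_left _ e3)))

/-- number of labels with a given sum, in terms of the primes -/
theorem CJ_le_pow {m : Sq} (hm : Pool.Agent.Helper99.T5g.OkF m) (hk : 3 ≤ m.k) (s : ℕ) :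
    CJ m.k s ≤ 2 ^ m.q 0 := by
  have h1 : CJ m.k s ≤ (2 * BP m.k) ^ 7 := by
    unfold CJ
    have hcard : (univ : Finset JF).card = 7 := by
      rw [card_univ]
      simp [JF]
    rw [← hcard]
    apply Finset.prod_le_pow_card
    intro i _
    have h2 : pJ m.k s i ≤ BP m.k := by
      rcases i with f | i
      · exact pr_le_BP m.k f
      · refine Fin.cases ?_ (fun f => ?_) i
        · exact (buf_lt_BP m.k).le
        · exact pz_le m.k (s + 1) f
    omega
  have h3 : 0 < BP m.k := Pool.Agent.Helper99.T5g.BP_pos' _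
  refine h1.trans (le_trans ?_ hm.BP16_le)
  calc (2 * BP m.k) ^ 7 ≤ (2 ^ 40 * BP m.k) ^ 7 :=
        Nat.pow_le_pow_left (Nat.mul_le_mul_right _ (by norm_num)) _
    _ ≤ _ := Nat.pow_le_pow_right (Nat.mul_pos (by positivity) h3) (by omega)

/-- **line 6** from the common target of the lines 6 and 7 -/
theorem inj_of (hZ : ZStatS) : Blk CaseInj HtC := by
  obtain ⟨E, k1, hZ⟩ := hZ
  obtain ⟨E', k2, hL⟩ := Pool.Agent.Helper83.T5g.blk_leaf
  refine ⟨E + E' + 1, max (max k1 k2) 3, fun m hm hk => ?_⟩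
  have hk3 : 3 ≤ m.k := (le_max_right _ _).trans hk
  have hk12 : max k1 k2 ≤ m.k := (le_max_left _ _).trans hk
  obtain ⟨K1, c1, m1', a2, a3, hZ⟩ := hZ m hm ((le_max_left _ _).trans hk12)
  obtain ⟨K2, c2, m2', b2, b3, hL⟩ := hL m hm ((le_max_right _ _).trans hk12)
  obtain ⟨K3, hHz⟩ := Pool.Agent.Helper57.T5g.hzS (m := m) (k := m.k) hm.toOk hk3
  obtain ⟨K4, hla⟩ := Pool.Agent.Helper96.T5g.exists_large m m.k
  refine ⟨K1 + K2 + K3 + K4 + 1, min c1 c2, m1' + m2', lt_min a2 b2, by positivity, ?_⟩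
  intro l l' hl' hll ha hp K hK hK'
  have hl1 : (1 : ℝ) ≤ (l : ℝ) := by exact_mod_cast (show 1 ≤ l by omega)
  have hDZ : DZ m m.k l' l := Pool.Agent.Helper57.T5g.DZ.of_inj hm.toOk hll hp
  have hA := hZ l l' (by omega) hll ha hDZ K hK hK'
  have hB := hL l l' (by omega) hll ha hp.1.1 K hK hK'
  obtain ⟨-, -, -, -, -, -, hc⟩ := hHz l' l (by omega) hDZ
  have h3 : ∀ (w : Key → ℕ) (s : ℕ), ((XJ m m.k l ×ˢ XJ m m.k l').filter
      (fun q => c0 m m.k l w q.1 + c0 m m.k l' w q.2 = s)).card ≤ 2 ^ m.q 0 := by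
    intro w s
    refine le_trans (le_of_eq ?_) ((inj_sum hm.toOk (hla l' (by omega)).1 hll hp.2.1 hc hp.2.2
      w s).trans (CJ_le_pow hm hk3 _))
    congr 1
  refine PrLe_mono (fun r _ hw => ?_) ?_ (PrLe_or hA hB)
  · generalize ext K r = w at hw ⊢
    by_contra hcon
    rw [not_or] at hcon
    obtain ⟨hn1, hn2⟩ := hcon
    push Not at hn1 hn2
    obtain ⟨c, ⟨n, rfl⟩, hlt⟩ := hw
    have hcard := card_hts_le (n := n) (M1 := 2 ^ (E * m.q 0)) (M2 := 2 ^ (E' * m.q 0))
      (M3 := 2 ^ m.q 0) hn1 hn2 (h3 w)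
    have h5 : 2 ^ (E' * m.q 0) * (2 ^ m.q 0 * 2 ^ (E * m.q 0)) = 2 ^ ((E + E' + 1) * m.q 0) := by
      rw [← pow_add, ← pow_add]
      congr 1
      ring
    omega
  · have e1 : Real.exp (-((l : ℝ) ^ c1)) ≤ Real.exp (-((l : ℝ) ^ min c1 c2)) :=
      Real.exp_le_exp.2 (neg_le_neg (Real.rpow_le_rpow_of_exponent_le hl1 (min_le_left _ _)))
    have e2 : Real.exp (-((l : ℝ) ^ c2)) ≤ Real.exp (-((l : ℝ) ^ min c1 c2)) :=
      Real.exp_le_exp.2 (neg_le_neg (Real.rpow_le_rpow_of_exponent_le hl1 (min_le_right _ _)))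
    nlinarith [mul_le_mul_of_nonneg_left e1 a3, mul_le_mul_of_nonneg_left e2 b3]

/-- **line 6**: representations -/
theorem inj_rpc (hZ : ZStatS) : Blk CaseInj RpC := (inj_of hZ).rp_of_ht

end Pool.Agent.Helper36.T5g
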